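import Pool.Agent.HeatLine.Represent
import Pool.Agent.HeatLine.Dioph

/-!
Observability of the two-dimensional Dirichlet heat equation on `(0,1)²` from the line
`y = x + β`, for every algebraic irrational `β ∈ (0,1)` and every time `T > 0`
(MP_56664b_an, Q1: the answer is yes).
-/

namespace Pool.Agent.Results.MP_56664b_an.SlopeOneLine

open Pool.Agent.HeatLine MeasureTheory Set Filter Topology
open scoped ENNReal

lemma line_isCurve (β : ℝ) : IsRealAlgebraicCurve (slopeOneLine β) := by
  refine ⟨1 * MvPolynomial.X 1 + (-(MvPolynomial.X 0) - MvPolynomial.C β), ?_, ?_⟩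
  · apply MvPolynomial.irreducible_mul_X_add
    · exact one_ne_zero
    · simp [MvPolynomial.vars_one]
    · intro h
      have h1 : ((-(MvPolynomial.X 0) - MvPolynomial.C β : MvPolynomial (Fin 2) ℝ)).vars ⊆
          (MvPolynomial.X 0 : MvPolynomial (Fin 2) ℝ).vars ∪
            (MvPolynomial.C β : MvPolynomial (Fin 2) ℝ).vars := by
        refine (MvPolynomial.vars_sub_subset _).trans ?_
        rw [MvPolynomial.vars_neg]
      have h2 := h1 h
      simp [MvPolynomial.vars_X, MvPolynomial.vars_C] at h2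
    · exact isRelPrime_one_left
  · ext z
    simp only [slopeOneLine, mem_ofPred_eq, map_add, map_mul, map_one, map_sub, map_neg,
      MvPolynomial.eval_X, MvPolynomial.eval_C, Matrix.cons_val_zero, Matrix.cons_val_one]
    constructor <;> intro h <;> linarith

/-- **Q1 of MP_56664b_an has a positive answer.** For every algebraic irrational number
`β ∈ (0,1)` the line `y = x + β` is a real algebraic curve, it is not parallel to a coordinate
axis, and for every `T > 0` the heat equation on `(0,1)²` is observable at time `T` from the part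
of the line inside `(0,1)²`. -/
theorem result (β : ℝ) (hβ0 : 0 < β) (hβ1 : β < 1) (hirr : Irrational β)
    (halg : IsAlgebraic ℚ β) :
    IsRealAlgebraicCurve (slopeOneLine β) ∧
      (∀ c : ℝ, slopeOneLine β ≠ {z | z.1 = c}) ∧ (∀ c : ℝ, slopeOneLine β ≠ {z | z.2 = c}) ∧
      ∀ T : ℝ, 0 < T → Observable (slopeOneLine β ∩ Sq) T := by
  refine ⟨line_isCurve β, ?_, ?_, ?_⟩
  · intro c h
    have h1 : ((c + 1, c + 1 + β) : ℝ × ℝ) ∈ slopeOneLine β := rfl
    rw [h] at h1
    simp at h1
  · intro c h
    have h1 : ((c + 1 - β, c + 1) : ℝ × ℝ) ∈ slopeOneLine β := by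
      simp [slopeOneLine]
    rw [h] at h1
    simp at h1
  · intro T hT
    obtain ⟨C₂, hC, hdio⟩ := dioph_of_algebraic β hirr halg
    obtain ⟨C, hC0, hobs⟩ := core_obs β C₂ hβ0 hβ1 hC hdio T hT
    refine ⟨C, hC0, ?_⟩
    intro u₀ u hu₀ hu
    have hb := coef_bound hu₀
    have h1 := hobs (coef u₀) _ hb (coef_odd u₀)
      (fun t => ⨆ z ∈ slopeOneLine β ∩ Sq, ENNReal.ofReal |u t z|) (by
        intro t ht0 htT x hx0 hx1
        have hz : ((x, x + β) : ℝ × ℝ) ∈ slopeOneLine β ∩ Sq := by
          refine ⟨rfl, ⟨hx0, by linarith⟩, ⟨by simp only; linarith, by simp only; linarith⟩⟩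
        have h2 := solution_eq_series hu₀ hu t ⟨ht0, htT.le⟩ (x, x + β) hz.2
        simp only at h2
        rw [← h2]
        exact le_iSup₂ (f := fun (z : ℝ × ℝ) (_ : z ∈ slopeOneLine β ∩ Sq) =>
          ENNReal.ofReal |u t z|) (x, x + β) hz)
    refine le_trans ?_ h1
    rw [eLpNorm_exponent_top]
    apply eLpNormEssSup_le_of_ae_enorm_bound
    filter_upwards [ae_restrict_mem measurableSet_Sq] with z hz
    rw [solution_eq_series hu₀ hu T ⟨hT, le_rfl⟩ z hz, Real.enorm_eq_ofReal_abs]
    exact ENNReal.ofReal_le_ofReal (abs_sineSeries_le hb T hT z.1 z.2)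

end Pool.Agent.Results.MP_56664b_an.SlopeOneLine
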